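import Pool.Agent.Q219.ZG.Props

/-!
# Zagier's conjecture: the nonvanishing of the determinants
-/

set_option autoImplicit false

namespace Pool.Agent.Q219.ZN

open GonP NumberField Pool.Agent.Q219.ZG

/-- `N(F)`: there are elements `y_w` of `ker δ_n`, one for each index `w`, such that the determinant of the
numbers `L_n(σ_v(y_w))` is not zero, `σ_v` the embedding given by the place `v`. -/
def Nonvanishing (n : ℕ) (F : Type) [Field F] [NumberField F] : Prop :=
  ∃ y : Idx n F → ZP F, (∀ w, y w ∈ Ker n F) ∧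
    (determinant fun w v => value n v.1.embedding (y w)) ≠ 0

/-- The fields to which the nonvanishing for `n` is reduced. -/
structure Remaining (n : ℕ) (F : Type) [Field F] [NumberField F] : Prop where
  free : ActsFreely (F ≃ₐ[ℚ] F)
  cyclic : ∀ A : Subgroup (F ≃ₐ[ℚ] F), (∀ a ∈ A, ∀ b ∈ A, a * b = b * a) → IsCyclic A
  involution : ∀ a b : F ≃ₐ[ℚ] F, a ≠ 1 → b ≠ 1 → a * a = 1 → b * b = 1 → a = b
  odd : Odd n → 2 ≤ Fintype.card (InfinitePlace F) ∧
    ∃ σ : F →+* ℂ, ∀ c : F ≃ₐ[ℚ] F, σ.comp (c : F →+* F) = conj σ → c = 1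
  even : Even n → ¬ TotallyReal F
  galois_odd : IsGalois ℚ F → Odd n → TotallyReal F
  galois_even : IsGalois ℚ F → Even n → IsCM F

end Pool.Agent.Q219.ZN
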