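import Pool.Agent.Q219.ZG.Props

/-!
# Real and rational representations of finite groups without fixed vectors
-/

set_option autoImplicit false

namespace Pool.Agent.Q219.ZN

open Pool.Agent.Q219.ZG

section

variable {G V : Type} [Group G] [Finite G] [AddCommGroup V] [Module ℝ V]

/-- a stable complement -/
lemma exists_compl (ρ : G →* (V →ₗ[ℝ] V)) {W : Submodule ℝ V}
    (hW : ∀ g, ∀ w ∈ W, ρ g w ∈ W) :
    ∃ U : Submodule ℝ V, (∀ g, ∀ u ∈ U, ρ g u ∈ U) ∧ W ⊓ U = ⊥ ∧ W ⊔ U = ⊤ := by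
  have : Fintype G := Fintype.ofFinite G
  obtain ⟨C, hC⟩ := W.exists_isCompl
  obtain ⟨π, hπ⟩ : ∃ π : V →ₗ[ℝ] V, (∀ v, π v ∈ W) ∧ ∀ w ∈ W, π w = w :=
    ⟨W.subtype ∘ₗ W.projectionOnto C hC, fun v => (W.projectionOnto C hC v).2, fun w hw => by
      show ((W.projectionOnto C hC w : W) : V) = w
      rw [Submodule.projectionOnto_apply_left hC ⟨w, hw⟩]⟩
  set p : V →ₗ[ℝ] V := (Fintype.card G : ℝ)⁻¹ • ∑ g : G, ρ g ∘ₗ π ∘ₗ ρ g⁻¹ with hp
  have hpa : ∀ v, p v = (Fintype.card G : ℝ)⁻¹ • ∑ g : G, ρ g (π (ρ g⁻¹ v)) := by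
    intro v
    rw [hp, LinearMap.smul_apply, LinearMap.sum_apply]
    rfl
  have hpW : ∀ v, p v ∈ W := by
    intro v
    rw [hpa]
    exact W.smul_mem _ (W.sum_mem fun g _ => hW g _ (hπ.1 _))
  have hpw : ∀ w ∈ W, p w = w := by
    intro w hw
    rw [hpa]
    have h1 : ∀ g : G, ρ g (π (ρ g⁻¹ w)) = w := by
      intro g
      rw [hπ.2 _ (hW _ _ hw)]
      show (ρ g * ρ g⁻¹) w = w
      rw [← map_mul, mul_inv_cancel, map_one]
      rfl
    rw [Finset.sum_congr rfl fun g _ => h1 g, Finset.sum_const, Finset.card_univ, ← Nat.cast_smul_eq_nsmul ℝ,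
      smul_smul, inv_mul_cancel₀ (by
        have : 0 < Fintype.card G := Fintype.card_pos
        positivity), one_smul]
  have hpc : ∀ h v, p (ρ h v) = ρ h (p v) := by
    intro h v
    rw [hpa, hpa, map_smul, map_sum]
    congr 1
    refine Fintype.sum_equiv (Equiv.mulLeft h⁻¹) _ _ fun g => ?_
    have e1 : ρ h (ρ (h⁻¹ * g) (π (ρ (h⁻¹ * g)⁻¹ v))) = (ρ h * ρ (h⁻¹ * g)) (π (ρ (h⁻¹ * g)⁻¹ v)) := rfl
    have e2 : ρ g⁻¹ (ρ h v) = (ρ g⁻¹ * ρ h) v := rfl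
    show ρ g (π (ρ g⁻¹ (ρ h v))) = ρ h (ρ (h⁻¹ * g) (π (ρ (h⁻¹ * g)⁻¹ v)))
    rw [e1, e2, ← map_mul, ← map_mul]
    congr 2
    · congr 1
      group
    · congr 2
      group
  refine ⟨LinearMap.ker p, fun g u hu => ?_, ?_, ?_⟩
  · rw [LinearMap.mem_ker] at hu ⊢
    rw [hpc, hu, map_zero]
  · rw [Submodule.eq_bot_iff]
    rintro x ⟨hx, hx'⟩
    have h1 : p x = 0 := hx'
    rw [← hpw x hx, h1]
  · rw [Submodule.eq_top_iff']
    intro x
    rw [Submodule.mem_sup]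
    refine ⟨p x, hpW x, x - p x, ?_, by abel⟩
    rw [LinearMap.mem_ker, map_sub, hpw _ (hpW x), sub_self]

/-- a stable complement in a stable subspace -/
lemma exists_compl' (ρ : G →* (V →ₗ[ℝ] V)) {W M : Submodule ℝ V} (hWM : W ≤ M)
    (hW : ∀ g, ∀ w ∈ W, ρ g w ∈ W) (hM : ∀ g, ∀ w ∈ M, ρ g w ∈ M) :
    ∃ U : Submodule ℝ V, U ≤ M ∧ (∀ g, ∀ u ∈ U, ρ g u ∈ U) ∧ W ⊓ U = ⊥ ∧ W ⊔ U = M := by
  obtain ⟨C, h1, h2, h3⟩ := exists_compl ρ hW
  refine ⟨C ⊓ M, inf_le_right, fun g u hu => ⟨h1 g u hu.1, hM g u hu.2⟩, ?_, ?_⟩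
  · rw [← inf_assoc, h2, bot_inf_eq]
  · rw [← sup_inf_assoc_of_le C hWM, h3, top_inf_eq]

end

section

variable (G : Type) [Group G]

/-- the rational functions on `G` whose sums over the cyclic groups `≠ 1` are zero -/
def ratSpace : Submodule ℚ (G → ℚ) where
  carrier := {ψ | ∀ g : G, g ≠ 1 → ∀ x, ∑ i ∈ Finset.range (Nat.card G), ψ ((g ^ i)⁻¹ * x) = 0}
  zero_mem' := fun g _ x => Finset.sum_eq_zero fun _ _ => rfl
  add_mem' := by
    intro a b ha hb g hg x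
    have h1 := ha g hg x
    have h2 := hb g hg x
    show ∑ i ∈ Finset.range (Nat.card G), (a ((g ^ i)⁻¹ * x) + b ((g ^ i)⁻¹ * x)) = 0
    rw [Finset.sum_add_distrib, h1, h2, add_zero]
  smul_mem' := by
    intro q a ha g hg x
    show ∑ i ∈ Finset.range (Nat.card G), q * a ((g ^ i)⁻¹ * x) = 0
    rw [← Finset.mul_sum, ha g hg x, mul_zero]

variable {G}

lemma trans_mem (k : G) {ψ : G → ℚ} (hψ : ψ ∈ ratSpace G) : (fun x => ψ (k⁻¹ * x)) ∈ ratSpace G := by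
  intro g hg x
  have h1 := hψ (k⁻¹ * g * k) (fun h => hg (by
    have h2 : k * (k⁻¹ * g * k) * k⁻¹ = k * 1 * k⁻¹ := by rw [h]
    have h3 : k * (k⁻¹ * g * k) * k⁻¹ = g := by group
    rw [h3, mul_one, mul_inv_cancel] at h2
    exact h2)) (k⁻¹ * x)
  rw [← h1]
  refine Finset.sum_congr rfl fun i _ => ?_
  have h4 : (k⁻¹ * g * k) ^ i = k⁻¹ * g ^ i * k := by
    have h5 := conj_pow (i := i) (a := k⁻¹) (b := g)
    rw [inv_inv] at h5
    exact h5
  show ψ (k⁻¹ * ((g ^ i)⁻¹ * x)) = ψ (((k⁻¹ * g * k) ^ i)⁻¹ * (k⁻¹ * x))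
  rw [h4]
  congr 1
  group

/-- the action -/
def ratAct : G →* Module.End ℚ (ratSpace G) where
  toFun k :=
    { toFun := fun ψ => ⟨fun x => ψ.1 (k⁻¹ * x), trans_mem k ψ.2⟩
      map_add' := fun _ _ => rfl
      map_smul' := fun _ _ => rfl }
  map_one' := by
    refine LinearMap.ext fun ψ => Subtype.ext (funext fun x => ?_)
    show ψ.1 (1⁻¹ * x) = ψ.1 x
    rw [inv_one, one_mul]
  map_mul' a b := by
    refine LinearMap.ext fun ψ => Subtype.ext (funext fun x => ?_)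
    show ψ.1 ((a * b)⁻¹ * x) = ψ.1 (b⁻¹ * (a⁻¹ * x))
    rw [mul_inv_rev, mul_assoc]

/-- a real representation without fixed vectors gives a rational one -/
lemma actsFreely_of_real [Finite G] {V : Type} [AddCommGroup V] [Module ℝ V] (ρ : G →* (V →ₗ[ℝ] V))
    {U : Submodule ℝ V} (hU : ∀ g, ∀ u ∈ U, ρ g u ∈ U) (hne : U ≠ ⊥)
    (hf : ∀ g, ∀ u ∈ U, ρ g u = u → g = 1 ∨ u = 0) : ActsFreely G := by
  have : Fintype G := Fintype.ofFinite G
  have hN : (Nat.card G : ℚ) ≠ 0 := by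
    have := Nat.card_pos (α := G)
    positivity
  obtain ⟨u, hu, hu0⟩ := (Submodule.ne_bot_iff _).1 hne
  obtain ⟨f, hfu⟩ : ∃ f : Module.Dual ℝ V, f u ≠ 0 := by
    by_contra hcon
    exact hu0 ((Module.forall_dual_apply_eq_zero_iff ℝ u).1 fun f => by
      by_contra h
      exact hcon ⟨f, h⟩)
  obtain ⟨e, he⟩ : ∃ e : Module.Dual ℚ ℝ, e (f u) ≠ 0 := by
    by_contra hcon
    exact hfu ((Module.forall_dual_apply_eq_zero_iff ℚ (f u)).1 fun e => by
      by_contra h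
      exact hcon ⟨e, h⟩)
  have hmul : ∀ (a b : G) (v : V), ρ (a * b) v = ρ a (ρ b v) := by
    intro a b v
    rw [map_mul]
    rfl
  have hsum : ∀ g : G, g ≠ 1 → ∑ i ∈ Finset.range (Nat.card G), ρ (g ^ i) u = 0 := by
    intro g hg
    have h1 : ρ g (∑ i ∈ Finset.range (Nat.card G), ρ (g ^ i) u) =
        ∑ i ∈ Finset.range (Nat.card G), ρ (g ^ i) u := by
      rw [map_sum]
      have h2 : ∀ i ∈ Finset.range (Nat.card G), ρ g (ρ (g ^ i) u) = ρ (g ^ (i + 1)) u := by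
        intro i _
        rw [← hmul, pow_succ']
      rw [Finset.sum_congr rfl h2]
      have h3 := Finset.sum_range_succ (fun i => ρ (g ^ i) u) (Nat.card G)
      have h4 := Finset.sum_range_succ' (fun i => ρ (g ^ i) u) (Nat.card G)
      rw [h3] at h4
      simp only [pow_zero, pow_card_eq_one'] at h4
      exact (add_right_cancel h4).symm
    rcases hf g _ (U.sum_mem fun i _ => hU _ _ hu) h1 with h2 | h2
    · exact absurd h2 hg
    · exact h2
  have hψ : (fun x : G => e (f (ρ x⁻¹ u))) ∈ ratSpace G := by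
    intro g hg x
    show ∑ i ∈ Finset.range (Nat.card G), e (f (ρ ((g ^ i)⁻¹ * x)⁻¹ u)) = 0
    rw [← map_sum, ← map_sum]
    have h1 : ∀ i ∈ Finset.range (Nat.card G), ρ ((g ^ i)⁻¹ * x)⁻¹ u = ρ x⁻¹ (ρ (g ^ i) u) := by
      intro i _
      rw [← hmul, mul_inv_rev, inv_inv]
    rw [Finset.sum_congr rfl h1, ← map_sum, hsum g hg, map_zero, map_zero, map_zero]
  refine ⟨ratSpace G, inferInstance, inferInstance, ratAct, inferInstance, ?_, ?_⟩
  · refine ⟨⟨⟨_, hψ⟩, 0, fun h => he ?_⟩⟩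
    have h1 : e (f (ρ (1 : G)⁻¹ u)) = 0 := congrFun (congrArg Subtype.val h) 1
    rw [inv_one, map_one] at h1
    exact h1
  · intro g ψ hg
    by_cases hg1 : g = 1
    · exact Or.inl hg1
    · right
      refine Subtype.ext (funext fun x => ?_)
      have h1 : ∀ y, ψ.1 (g⁻¹ * y) = ψ.1 y := fun y => congrFun (congrArg Subtype.val hg) y
      have h2 : ∀ i : ℕ, ψ.1 ((g ^ i)⁻¹ * x) = ψ.1 x := by
        intro i
        induction i with
        | zero => rw [pow_zero, inv_one, one_mul]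
        | succ i ih =>
          rw [pow_succ, mul_inv_rev, mul_assoc, h1, ih]
      have h3 := ψ.2 g hg1 x
      rw [Finset.sum_congr rfl fun i _ => h2 i, Finset.sum_const, Finset.card_range, nsmul_eq_mul] at h3
      exact (mul_eq_zero.1 h3).resolve_left hN

end

end Pool.Agent.Q219.ZN
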