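import Pool.Agent.Q219.ZN.Par
import Pool.Agent.Q20.ZG.Zne

/-!
# The nonvanishing of the determinants and the automorphisms of the field
-/

set_option autoImplicit false

namespace Pool.Agent.Q219.ZN

open GonP NumberField Pool.Agent.Q219.ZG

section

variable {n : ℕ}

lemma rho_apply {F : Type} [Field F] [NumberField F] (g : F ≃ₐ[ℚ] F) (φ : (F →+* ℂ) → ℝ)
    (σ : F →+* ℂ) : rho F g φ σ = φ (σ.comp (g : F →+* F)) := rfl

lemma rho_mul {F : Type} [Field F] [NumberField F] (a b : F ≃ₐ[ℚ] F) (φ : (F →+* ℂ) → ℝ) :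
    rho F (a * b) φ = rho F a (rho F b φ) := by
  rw [map_mul]
  rfl

lemma rho_one {F : Type} [Field F] [NumberField F] (φ : (F →+* ℂ) → ℝ) : rho F 1 φ = φ := by
  rw [map_one]
  rfl

/-- elements fixed by an automorphism `≠ 1` -/
lemma fixed_mem_Val (hn : 3 ≤ n) {L : Type} [Field L] [NumberField L]
    (h : ∀ E : IntermediateField ℚ L, E ≠ ⊤ → Nonvanishing n E) {g : L ≃ₐ[ℚ] L} (hg1 : g ≠ 1)
    {u : (L →+* ℂ) → ℝ} (hu : u ∈ Par n L) (hg : rho L g u = u) : u ∈ Val n L := by
  have h1 : ∀ k ∈ Subgroup.zpowers g, rho L k u = u := by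
    let S : Subgroup (L ≃ₐ[ℚ] L) :=
      { carrier := {k | rho L k u = u}
        one_mem' := rho_one u
        mul_mem' := by
          intro a b ha hb
          have ha' : rho L a u = u := ha
          have hb' : rho L b u = u := hb
          show rho L (a * b) u = u
          rw [rho_mul, hb', ha']
        inv_mem' := by
          intro a ha
          have ha' : rho L a u = u := ha
          show rho L a⁻¹ u = u
          calc rho L a⁻¹ u = rho L a⁻¹ (rho L a u) := by rw [ha']
            _ = u := by rw [← rho_mul, inv_mul_cancel, rho_one] }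
    intro k hk
    have h2 : Subgroup.zpowers g ≤ S := by
      rw [Subgroup.zpowers_le]
      exact hg
    exact h2 hk
  have h2 : Nonvanishing n (IntermediateField.fixedField (Subgroup.zpowers g)) := by
    refine h _ fun htop => ?_
    have h1 := IntermediateField.fixingSubgroup_fixedField (Subgroup.zpowers g)
    rw [htop, IntermediateField.fixingSubgroup_top] at h1
    exact hg1 (Subgroup.zpowers_eq_bot.1 h1.symm)
  obtain ⟨y, hy, hyu⟩ := descent (Subgroup.zpowers g) hu h1
  rw [← hyu]
  exact pull_Val hn _ ((nonvanishing_iff (by omega) _).1 h2 hy)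

/-- a free action -/
lemma free_of_not (hn : 3 ≤ n) {L : Type} [Field L] [NumberField L]
    (h : ∀ E : IntermediateField ℚ L, E ≠ ⊤ → Nonvanishing n E) (hL : ¬ Nonvanishing n L) :
    ∃ U : Submodule ℝ ((L →+* ℂ) → ℝ), U ≤ Par n L ∧ (∀ g, ∀ u ∈ U, rho L g u ∈ U) ∧ U ≠ ⊥ ∧
      (∀ g, ∀ u ∈ U, rho L g u = u → g = 1 ∨ u = 0) := by
  obtain ⟨U, hUP, hs, h1, h2⟩ := exists_compl' (rho L) (Val_le_Par (by omega) L)
    (fun g w hw => pull_Val hn _ hw) (fun g w hw => pull_Par _ hw)
  refine ⟨U, hUP, hs, ?_, ?_⟩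
  · rintro rfl
    rw [sup_bot_eq] at h2
    exact hL ((nonvanishing_iff (by omega) L).2 h2.ge)
  · intro g u hu hg
    by_cases hg1 : g = 1
    · exact Or.inl hg1
    · right
      have h5 : u ∈ Val n L ⊓ U := ⟨fixed_mem_Val hn h hg1 (hUP hu) hg, hu⟩
      rw [h1] at h5
      exact (Submodule.mem_bot ℝ).1 h5

lemma conj_sq {F : Type} [Field F] [NumberField F] {σ : F →+* ℂ} {c : F ≃ₐ[ℚ] F}
    (hσ : σ.comp (c : F →+* F) = conj σ) : c * c = 1 := by
  refine AlgEquiv.ext fun x => σ.injective ?_
  have h1 : ∀ y, σ (c y) = conj σ y := fun y => RingHom.congr_fun hσ y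
  show σ (c (c x)) = σ x
  rw [h1]
  show (starRingEnd ℂ) (σ (c x)) = σ x
  rw [h1]
  exact Complex.conj_conj _

section free

variable {F : Type} [Field F] [NumberField F] {U : Submodule ℝ ((F →+* ℂ) → ℝ)}
  (hs : ∀ g, ∀ u ∈ U, rho F g u ∈ U) (hf : ∀ g, ∀ u ∈ U, rho F g u = u → g = 1 ∨ u = 0)

include hs hf

/-- an involution acts as `-1` -/
lemma invol_neg {a : F ≃ₐ[ℚ] F} (ha : a ≠ 1) (haa : a * a = 1) {u : (F →+* ℂ) → ℝ} (hu : u ∈ U) :
    rho F a u = -u := by
  have h1 : rho F a (u + rho F a u) = u + rho F a u := by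
    rw [map_add, ← rho_mul, haa, rho_one, add_comm]
  rcases hf a _ (U.add_mem hu (hs a u hu)) h1 with h2 | h2
  · exact absurd h2 ha
  · rw [eq_neg_iff_add_eq_zero, add_comm]
    exact h2

lemma invol_unique (hne : U ≠ ⊥) (a b : F ≃ₐ[ℚ] F) (ha : a ≠ 1) (hb : b ≠ 1) (haa : a * a = 1)
    (hbb : b * b = 1) : a = b := by
  obtain ⟨u, hu, hu0⟩ := (Submodule.ne_bot_iff _).1 hne
  have h1 : rho F (a * b) u = u := by
    rw [rho_mul, invol_neg hs hf hb hbb hu, map_neg, invol_neg hs hf ha haa hu, neg_neg]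
  rcases hf (a * b) u hu h1 with h2 | h2
  · have h3 : a * b = b * b := by rw [h2, hbb]
    exact mul_right_cancel h3
  · exact absurd h2 hu0

/-- `n` odd: an involution which induces complex conjugation for `σ` -/
lemma zero_odd (hU : U ≤ Par n F) (hn : Odd n) {c : F ≃ₐ[ℚ] F} (hc : c ≠ 1) {σ : F →+* ℂ}
    (hσ : σ.comp (c : F →+* F) = conj σ) {u : (F →+* ℂ) → ℝ} (hu : u ∈ U) : u σ = 0 := by
  have h1 := congrFun (invol_neg hs hf hc (conj_sq hσ) hu) σ
  have h2 : u (conj σ) = -u σ := by
    rw [← hσ]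
    exact h1
  rw [hU hu, (Nat.Odd.sub_odd hn odd_one).neg_one_pow, one_mul] at h2
  linarith

end free

/-- `n` even: real embeddings -/
lemma zero_even (hn0 : 0 < n) (hn : Even n) {F : Type} [Field F] {σ : F →+* ℂ}
    (hσ : conj σ = σ) {u : (F →+* ℂ) → ℝ} (hu : u ∈ Par n F) : u σ = 0 := by
  have h1 := hu σ
  rw [hσ, (Nat.Even.sub_odd hn0 hn odd_one).neg_one_pow] at h1
  linarith

/-- Galois fields: one embedding suffices -/
lemma eq_bot_of_galois {F : Type} [Field F] [NumberField F] [IsGalois ℚ F]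
    {U : Submodule ℝ ((F →+* ℂ) → ℝ)} (hs : ∀ g, ∀ u ∈ U, rho F g u ∈ U)
    (σ : F →+* ℂ) (h : ∀ u ∈ U, u σ = 0) : U = ⊥ := by
  rw [Submodule.eq_bot_iff]
  intro u hu
  funext τ
  obtain ⟨g, hg⟩ := NumberField.ComplexEmbedding.exists_comp_symm_eq_of_comp_eq (k := ℚ) σ τ
    (Subsingleton.elim _ _)
  rw [← hg]
  exact h _ (hs g.symm u hu)

/-- the class of `1` -/
lemma one_mem_Ker (n : ℕ) (F : Type) [Field F] : gen (some (1 : F)) ∈ Ker n F := by
  show deltaS F (R (n - 1) F) (gen (some (1 : F))) = 0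
  unfold deltaS
  rw [lift_gen]
  show tm _ (cl (1 : F)) = 0
  have h1 : cl (1 : F) = 0 := by
    unfold cl
    rw [dif_neg one_ne_zero]
    refine congrArg Additive.ofMul (Units.ext ?_)
    rfl
  rw [h1]
  exact TensorProduct.tmul_zero _ _

lemma Li_one (hn : 2 ≤ n) : 0 < (Li n 1).re := by
  have h1 : Li n 1 = ((∑' j : ℕ, 1 / ((j : ℝ) + 1) ^ n : ℝ) : ℂ) := by
    unfold Li
    rw [Complex.ofReal_tsum]
    refine tsum_congr fun j => ?_
    rw [one_pow]
    push_cast
    rfl
  have hs : Summable fun j : ℕ => 1 / ((j : ℝ) + 1) ^ n := by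
    have h2 := (summable_nat_add_iff 1).2 (Real.summable_one_div_nat_pow.2 (by omega : 1 < n))
    refine h2.congr fun j => ?_
    push_cast
    rfl
  rw [h1, Complex.ofReal_re]
  refine hs.tsum_pos (fun j => by positivity) 0 (by positivity)

lemma value_one (hn : 2 ≤ n) (ho : Odd n) {F : Type} [Field F] (σ : F →+* ℂ) :
    value n σ (gen (some (1 : F))) ≠ 0 := by
  have h1 : value n σ (gen (some (1 : F))) = polylog n (mapP σ (some 1)) := lift_gen _ _
  have h2 : mapP σ (some (1 : F)) = some 1 := congrArg some (map_one σ)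
  have h3 : polylog n (some (1 : ℂ)) = part n (liSum n 1) := by
    show (if ‖(1 : ℂ)‖ ≤ 1 then _ else _) = _
    rw [if_pos (by rw [norm_one])]
  have h4 : liSum n 1 = Li n 1 := by
    unfold liSum
    rw [Finset.sum_eq_single 0]
    · rw [pow_zero, mul_one, Nat.sub_zero]
      have h5 : beta 0 = 1 := by
        unfold beta
        simp
      rw [h5, Complex.ofReal_one, one_mul]
    · intro k _ hk
      rw [norm_one, Real.log_one, zero_pow hk, mul_zero, Complex.ofReal_zero, zero_mul]
    · intro h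
      exact absurd (Finset.mem_range.2 (by omega)) h
  rw [h1, h2, h3, h4]
  unfold part
  rw [if_pos ho]
  exact (Li_one hn).ne'

/-- `n` odd: fields with one infinite place -/
lemma nonvanishing_of_place (hn : 2 ≤ n) (ho : Odd n) {F : Type} [Field F] [NumberField F]
    (hF : Fintype.card (InfinitePlace F) ≤ 1) : Nonvanishing n F := by
  have hss : Subsingleton (Idx n F) := by
    have := Fintype.card_le_one_iff_subsingleton.1 hF
    exact ⟨fun a b => Subtype.ext (Subsingleton.elim _ _)⟩
  obtain ⟨v⟩ : Nonempty (InfinitePlace F) := inferInstance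
  refine ⟨fun _ => gen (some 1), fun _ => one_mem_Ker n F, ?_⟩
  have hv : Nonempty (Idx n F) := ⟨⟨v, Or.inl ho⟩⟩
  obtain ⟨v0⟩ := hv
  unfold determinant
  rw [Matrix.det_eq_elem_of_subsingleton _ v0]
  exact value_one hn ho _

/-- a field of minimal degree -/
lemma remaining_of_not (hn : 3 ≤ n) {F : Type} [Field F] [NumberField F]
    (h : ∀ E : IntermediateField ℚ F, E ≠ ⊤ → Nonvanishing n E) (hF : ¬ Nonvanishing n F) :
    Remaining n F := by
  obtain ⟨U, hUP, hs, hne, hf⟩ := free_of_not hn h hF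
  have hn0 : 0 < n := by omega
  have hinv := invol_unique hs hf hne
  have hfr := actsFreely_of_real (rho F) hs hne hf
  refine ⟨hfr, ?_, hinv, ?_, ?_, ?_, ?_⟩
  · intro A hA
    letI : CommGroup A := { (inferInstance : Group A) with
      mul_comm := fun a b => Subtype.ext (hA a a.2 b b.2) }
    obtain ⟨V, _, _, ρ, hfd, hnt, hfree⟩ := hfr
    refine cyclic_of_free (B := A) (V := V) (ρ.comp A.subtype) fun a v hav => ?_
    rcases hfree a v hav with h1 | h1
    · exact Or.inl (Subtype.ext h1)
    · exact Or.inr h1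
  · intro ho
    refine ⟨?_, ?_⟩
    · by_contra hcon
      exact hF (nonvanishing_of_place (by omega) ho (by omega))
    · by_contra hcon
      refine hne ((Submodule.eq_bot_iff _).2 fun u hu => funext fun σ => ?_)
      have h1 : ∃ c : F ≃ₐ[ℚ] F, σ.comp (c : F →+* F) = conj σ ∧ c ≠ 1 := by
        by_contra h2
        refine hcon ⟨σ, fun c hc => ?_⟩
        by_contra h3
        exact h2 ⟨c, hc, h3⟩
      obtain ⟨c, hc, hc1⟩ := h1
      exact zero_odd hs hf hUP ho hc1 hc hu
  · intro he hr
    exact hne ((Submodule.eq_bot_iff _).2 fun u hu => funext fun σ =>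
      zero_even hn0 he (hr σ) (hUP hu))
  · intro hG ho σ
    obtain ⟨c, hc⟩ := exists_conj σ
    by_cases hc1 : c = 1
    · rw [← hc, hc1]
      rfl
    · exact absurd (eq_bot_of_galois hs σ fun u hu => zero_odd hs hf hUP ho hc1 hc hu) hne
  · intro hG he
    have h1 : ∀ (σ : F →+* ℂ) (c : F ≃ₐ[ℚ] F), σ.comp (c : F →+* F) = conj σ → c ≠ 1 := by
      rintro σ c hc rfl
      exact hne (eq_bot_of_galois hs σ fun u hu => zero_even hn0 he (hc.symm.trans (by rfl)) (hUP hu))
    obtain ⟨σ⟩ : Nonempty (F →+* ℂ) := inferInstance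
    obtain ⟨c, hc⟩ := exists_conj σ
    refine ⟨c, h1 σ c hc, fun τ => ?_⟩
    obtain ⟨c', hc'⟩ := exists_conj τ
    rw [hinv c c' (h1 σ c hc) (h1 τ c' hc') (conj_sq hc) (conj_sq hc')]
    exact hc'

/-- induction on the degree, in a class of fields which is closed under subfields -/
lemma induct (hn : 3 ≤ n) (P : ∀ (F : Type) [Field F] [NumberField F], Prop)
    (hP : ∀ (F : Type) [Field F] [NumberField F], P F → ∀ E : IntermediateField ℚ F, P E)
    (h : ∀ (F : Type) [Field F] [NumberField F], P F → Remaining n F → Nonvanishing n F) :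
    ∀ (F : Type) [Field F] [NumberField F], P F → Nonvanishing n F := by
  suffices H : ∀ (d : ℕ) (F : Type) [Field F] [NumberField F], Module.finrank ℚ F ≤ d → P F →
      Nonvanishing n F from fun F _ _ hF => H _ F le_rfl hF
  intro d
  induction d with
  | zero =>
    intro F _ _ hd
    have : 0 < Module.finrank ℚ F := Module.finrank_pos
    omega
  | succ d ih =>
    intro F _ _ hd hF
    have h1 : ∀ E : IntermediateField ℚ F, E ≠ ⊤ → Nonvanishing n E := by
      intro E hE
      refine ih E ?_ (hP F hF E)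
      have h2 : Module.finrank ℚ E < Module.finrank ℚ F := by
        refine Submodule.finrank_lt (s := Subalgebra.toSubmodule E.toSubalgebra) fun htop => hE ?_
        rw [eq_top_iff]
        intro x _
        have : x ∈ Subalgebra.toSubmodule E.toSubalgebra := by
          rw [htop]
          exact Submodule.mem_top
        exact this
      omega
    by_contra hcon
    exact hcon (h F hF (remaining_of_not hn h1 hcon))

/-- the formula implies the nonvanishing -/
lemma nonvanishing_of_zagier (hn : 2 ≤ n) {F : Type} [Field F] [NumberField F] (h : Zagier n F) :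
    Nonvanishing n F := by
  obtain ⟨y, hy, hm⟩ := h
  exact ⟨y, hy, right_ne_zero_of_mul ((isMultiple_ne hm).1 (Pool.Agent.Q20.ZG.zeta_ne F hn))⟩

/-- the converse, with the theorems of Borel and of Beilinson-Deligne and de Jeu -/
lemma zagier_of_nonvanishing {T : KTheory} (hT : T.IsKnown' n) {F : Type} [Field F] [NumberField F]
    (h : Nonvanishing n F) : Zagier n F := by
  obtain ⟨y, hy, h3⟩ := h
  obtain ⟨b, hb, hz⟩ := hT.borel F
  rw [zagier_iff hT]
  choose x hx using fun w => hT.polylog (y w) (hy w)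
  have hli : LinearIndependent ℚ x := by
    rw [Fintype.linearIndependent_iff]
    intro c hc
    have h4 : (fun w => (c w : ℝ)) = 0 := by
      refine Matrix.eq_zero_of_vecMul_eq_zero h3 (funext fun v => ?_)
      have h5 := congrArg (T.reg v.1.embedding) hc
      rw [map_sum, map_zero] at h5
      rw [Pi.zero_apply, ← h5]
      show ∑ w, (c w : ℝ) * value n v.1.embedding (y w) = _
      refine Finset.sum_congr rfl fun w _ => ?_
      rw [map_smul, hx, Rat.smul_def]
    intro w
    have h5 : (c w : ℝ) = 0 := congrFun h4 w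
    exact_mod_cast h5
  have hfd : FiniteDimensional ℚ (T.K F) := Module.Finite.of_basis b
  have hcard : Fintype.card (Idx n F) = Module.finrank ℚ (T.K F) :=
    (Module.finrank_eq_card_basis b).symm
  have htop := hli.span_eq_top_of_card_eq_finrank' hcard
  have hle : Submodule.span ℚ (Set.range x) ≤ polySpace T n F := by
    rw [Submodule.span_le]
    rintro _ ⟨w, rfl⟩
    refine ⟨1, one_ne_zero, y w, hy w, fun σ => ?_⟩
    rw [Int.cast_one, one_smul, hx]
  intro z
  have h6 : z ∈ Submodule.span ℚ (Set.range x) := by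
    rw [htop]
    exact Submodule.mem_top
  exact hle h6

end

end Pool.Agent.Q219.ZN
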