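import Pool.Agent.Q219.ZN.Defs
import Pool.Agent.Q219.ZN.Lin
import Pool.Agent.Q219.ZG.Red

/-!
# The real span of the vectors of the values of the polylogarithm
-/

set_option autoImplicit false

namespace Pool.Agent.Q219.ZN

open GonP NumberField Pool.Agent.Q219.ZG

section conj

lemma Li_conj (m : ℕ) (z : ℂ) : Li m ((starRingEnd ℂ) z) = (starRingEnd ℂ) (Li m z) := by
  unfold Li
  rw [Complex.conj_tsum]
  refine tsum_congr fun j => ?_
  rw [map_div₀, map_pow, map_pow, map_add, map_one, Complex.conj_natCast]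

lemma liSum_conj (n : ℕ) (z : ℂ) : liSum n ((starRingEnd ℂ) z) = (starRingEnd ℂ) (liSum n z) := by
  unfold liSum
  rw [map_sum]
  refine Finset.sum_congr rfl fun k _ => ?_
  rw [map_mul, Complex.conj_ofReal, Li_conj, Complex.norm_conj]

lemma part_conj {n : ℕ} (hn0 : 0 < n) (z : ℂ) :
    part n ((starRingEnd ℂ) z) = (-1) ^ (n - 1) * part n z := by
  unfold part
  rcases Nat.even_or_odd n with hn | hn
  · rw [if_neg (Nat.not_odd_iff_even.2 hn), if_neg (Nat.not_odd_iff_even.2 hn), Complex.conj_im,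
      (Nat.Even.sub_odd hn0 hn odd_one).neg_one_pow]
    ring
  · rw [if_pos hn, if_pos hn, Complex.conj_re, (Nat.Odd.sub_odd hn odd_one).neg_one_pow, one_mul]

lemma polylog_conj {n : ℕ} (hn0 : 0 < n) (x : P1 ℂ) :
    polylog n (mapP (starRingEnd ℂ) x) = (-1) ^ (n - 1) * polylog n x := by
  cases x with
  | none =>
    show (0 : ℝ) = (-1) ^ (n - 1) * 0
    rw [mul_zero]
  | some z =>
    show (if ‖(starRingEnd ℂ) z‖ ≤ 1 then part n (liSum n ((starRingEnd ℂ) z)) else
      (-1) ^ (n - 1) * part n (liSum n ((starRingEnd ℂ) z)⁻¹)) = (-1) ^ (n - 1) *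
      (if ‖z‖ ≤ 1 then part n (liSum n z) else (-1) ^ (n - 1) * part n (liSum n z⁻¹))
    rw [Complex.norm_conj, ← map_inv₀, liSum_conj, liSum_conj, part_conj hn0, part_conj hn0]
    split_ifs
    · rfl
    · rfl

lemma value_conj {n : ℕ} (hn0 : 0 < n) {F : Type} [Field F] (σ : F →+* ℂ) (α : ZP F) :
    value n (conj σ) α = (-1) ^ (n - 1) * value n σ α := by
  have h : liftHom (fun x => polylog n (mapP (conj σ) x)) =
      (AddMonoidHom.mulLeft ((-1 : ℝ) ^ (n - 1))).comp (liftHom (fun x => polylog n (mapP σ x))) := by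
    refine hom_ext fun x => ?_
    rw [AddMonoidHom.comp_apply, liftHom_gen, liftHom_gen]
    have h1 : mapP (conj σ) x = mapP (starRingEnd ℂ) (mapP σ x) := (mapP_comp σ (starRingEnd ℂ) x).symm
    rw [h1, polylog_conj hn0]
    rfl
  exact DFunLike.congr_fun h α

end conj

section

variable (n : ℕ) (F : Type) [Field F]

/-- the functions with the parity `(-1)^(n-1)` -/
def Par : Submodule ℝ ((F →+* ℂ) → ℝ) where
  carrier := {φ | ∀ σ, φ (conj σ) = (-1) ^ (n - 1) * φ σ}
  zero_mem' := fun σ => by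
    show (0 : ℝ) = (-1) ^ (n - 1) * 0
    rw [mul_zero]
  add_mem' := by
    intro a b ha hb σ
    show a (conj σ) + b (conj σ) = (-1) ^ (n - 1) * (a σ + b σ)
    rw [ha, hb]
    ring
  smul_mem' := by
    intro c a ha σ
    show c * a (conj σ) = (-1) ^ (n - 1) * (c * a σ)
    rw [ha]
    ring

/-- the real span of the vectors of the values -/
def Val : Submodule ℝ ((F →+* ℂ) → ℝ) :=
  Submodule.span ℝ {φ | ∃ α ∈ Ker n F, φ = fun σ => value n σ α}

end

section

variable {n : ℕ}

lemma mem_Par {F : Type} [Field F] {φ : (F →+* ℂ) → ℝ} :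
    φ ∈ Par n F ↔ ∀ σ, φ (conj σ) = (-1) ^ (n - 1) * φ σ := Iff.rfl

lemma vec_mem_Val {F : Type} [Field F] {α : ZP F} (hα : α ∈ Ker n F) :
    (fun σ => value n σ α) ∈ Val n F := Submodule.subset_span ⟨α, hα, rfl⟩

lemma Val_le_Par (hn0 : 0 < n) (F : Type) [Field F] : Val n F ≤ Par n F := by
  unfold Val
  rw [Submodule.span_le]
  rintro _ ⟨α, -, rfl⟩ σ
  exact value_conj hn0 σ α

/-- pull-back of functions along `f : F → L` -/
def pull {F L : Type} [Field F] [Field L] (f : F →+* L) :
    ((F →+* ℂ) → ℝ) →ₗ[ℝ] ((L →+* ℂ) → ℝ) where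
  toFun φ σ := φ (σ.comp f)
  map_add' _ _ := rfl
  map_smul' _ _ := rfl

lemma pull_Par {F L : Type} [Field F] [Field L] (f : F →+* L) {φ : (F →+* ℂ) → ℝ}
    (hφ : φ ∈ Par n F) : pull f φ ∈ Par n L := by
  intro σ
  exact hφ (σ.comp f)

lemma pull_Val (hn : 3 ≤ n) {F L : Type} [Field F] [Field L] (f : F →+* L) {φ : (F →+* ℂ) → ℝ}
    (hφ : φ ∈ Val n F) : pull f φ ∈ Val n L := by
  have h1 : Val n F ≤ (Val n L).comap (pull f) := by
    unfold Val
    rw [Submodule.span_le]
    rintro _ ⟨α, hα, rfl⟩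
    refine Submodule.subset_span ⟨mapZ f α, Ker_map hn f hα, funext fun σ => ?_⟩
    exact (value_mapZ n f σ α).symm
  exact h1 hφ

/-- a function with the right parity is determined by its values at the places -/
lemma eq_zero_of_places (hn0 : 0 < n) {F : Type} [Field F] [NumberField F] {φ : (F →+* ℂ) → ℝ}
    (hφ : φ ∈ Par n F) (h : ∀ v : Idx n F, φ v.1.embedding = 0) : φ = 0 := by
  funext σ
  by_cases hidx : Odd n ∨ (InfinitePlace.mk σ).IsComplex
  · have h1 := h ⟨InfinitePlace.mk σ, hidx⟩
    rcases InfinitePlace.embedding_mk_eq σ with h2 | h2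
    · rw [h2] at h1
      exact h1
    · have h3 : φ (conj σ) = 0 := by
        have h4 : (InfinitePlace.mk σ).embedding = conj σ := h2
        rw [← h4]
        exact h1
      rw [hφ] at h3
      exact (mul_eq_zero.1 h3).resolve_left (pow_ne_zero _ (by norm_num))
  · rw [not_or, Nat.not_odd_iff_even, InfinitePlace.isComplex_mk_iff, not_not] at hidx
    obtain ⟨hev, hreal⟩ := hidx
    have h1 := hφ σ
    have h2 : conj σ = σ := hreal
    rw [h2, (Nat.Even.sub_odd hn0 hev odd_one).neg_one_pow] at h1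
    show φ σ = 0
    linarith

open Classical in
/-- values at the places can be prescribed -/
lemma exists_of_places (hn0 : 0 < n) {F : Type} [Field F] [NumberField F] (g : Idx n F → ℝ) :
    ∃ φ ∈ Par n F, ∀ v : Idx n F, φ v.1.embedding = g v := by
  have hsq : ((-1 : ℝ) ^ (n - 1)) * (-1) ^ (n - 1) = 1 := by
    rw [← mul_pow]
    norm_num
  refine ⟨fun σ => if h : Odd n ∨ (InfinitePlace.mk σ).IsComplex then
    (if (InfinitePlace.mk σ).embedding = σ then 1 else (-1) ^ (n - 1)) * g ⟨InfinitePlace.mk σ, h⟩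
    else 0, fun σ => ?_, fun v => ?_⟩
  · have hmk : InfinitePlace.mk (conj σ) = InfinitePlace.mk σ := InfinitePlace.mk_conjugate_eq σ
    by_cases h : Odd n ∨ (InfinitePlace.mk σ).IsComplex
    · have h' : Odd n ∨ (InfinitePlace.mk (conj σ)).IsComplex := by rwa [hmk]
      have hg : g ⟨InfinitePlace.mk (conj σ), h'⟩ = g ⟨InfinitePlace.mk σ, h⟩ := by
        congr 1
        exact Subtype.ext hmk
      show (if h : Odd n ∨ (InfinitePlace.mk (conj σ)).IsComplex then _ else _) =
        (-1) ^ (n - 1) * (if h : Odd n ∨ (InfinitePlace.mk σ).IsComplex then _ else _)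
      rw [dif_pos h', dif_pos h, hg, hmk]
      by_cases h1 : (InfinitePlace.mk σ).embedding = σ
      · by_cases h2 : conj σ = σ
        · have hreal : ¬ (InfinitePlace.mk σ).IsComplex := by
            rw [InfinitePlace.isComplex_mk_iff, not_not]
            exact h2
          have hodd : Odd n := h.resolve_right hreal
          rw [if_pos h1, if_pos (h1.trans h2.symm), (Nat.Odd.sub_odd hodd odd_one).neg_one_pow, one_mul, one_mul]
        · rw [if_pos h1, if_neg (fun h3 => h2 (h3.symm.trans h1)), one_mul]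
      · have h2 : (InfinitePlace.mk σ).embedding = conj σ :=
          (InfinitePlace.embedding_mk_eq σ).resolve_left h1
        rw [if_neg h1, if_pos h2, ← mul_assoc, hsq]
    · have h' : ¬ (Odd n ∨ (InfinitePlace.mk (conj σ)).IsComplex) := by rwa [hmk]
      show (if h : Odd n ∨ (InfinitePlace.mk (conj σ)).IsComplex then _ else _) =
        (-1) ^ (n - 1) * (if h : Odd n ∨ (InfinitePlace.mk σ).IsComplex then _ else _)
      rw [dif_neg h', dif_neg h, mul_zero]
  · have hmk : InfinitePlace.mk v.1.embedding = v.1 := InfinitePlace.mk_embedding v.1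
    have h : Odd n ∨ (InfinitePlace.mk v.1.embedding).IsComplex := by
      rw [hmk]
      exact v.2
    show (if h : Odd n ∨ (InfinitePlace.mk v.1.embedding).IsComplex then _ else _) = g v
    rw [dif_pos h, if_pos (by rw [hmk]), one_mul]
    congr 1
    exact Subtype.ext hmk

/-- the criterion -/
lemma nonvanishing_iff (hn0 : 0 < n) (F : Type) [Field F] [NumberField F] :
    Nonvanishing n F ↔ Par n F ≤ Val n F := by
  constructor
  · rintro ⟨y, hy, hdet⟩ φ hφ
    set M : Matrix (Idx n F) (Idx n F) ℝ := Matrix.of fun w v => value n v.1.embedding (y w) with hM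
    have hdet' : M.det ≠ 0 := hdet
    obtain ⟨c, hc⟩ : ∃ c : Idx n F → ℝ, ∀ v : Idx n F,
        ∑ w, c w * value n v.1.embedding (y w) = φ v.1.embedding := by
      refine ⟨Matrix.vecMul (fun v => φ v.1.embedding) M⁻¹, fun v => ?_⟩
      have h3 : Matrix.vecMul (Matrix.vecMul (fun v : Idx n F => φ v.1.embedding) M⁻¹) M =
          fun v : Idx n F => φ v.1.embedding := by
        rw [Matrix.vecMul_vecMul, Matrix.nonsing_inv_mul _ (isUnit_iff_ne_zero.2 hdet'), Matrix.vecMul_one]
      exact congrFun h3 v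
    set ψ : (F →+* ℂ) → ℝ := ∑ w, c w • fun σ => value n σ (y w) with hψ
    have hψV : ψ ∈ Val n F := Submodule.sum_mem _ fun w _ =>
      Submodule.smul_mem _ _ (vec_mem_Val (hy w))
    have hψa : ∀ σ, ψ σ = ∑ w, c w * value n σ (y w) := by
      intro σ
      rw [hψ, Finset.sum_apply]
      rfl
    have h1 : φ - ψ = 0 := by
      refine eq_zero_of_places hn0 (Submodule.sub_mem _ hφ (Val_le_Par hn0 F hψV)) fun v => ?_
      show φ v.1.embedding - ψ v.1.embedding = 0
      rw [hψa, hc, sub_self]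
    rw [sub_eq_zero.1 h1]
    exact hψV
  · intro h
    let ev : ((F →+* ℂ) → ℝ) →ₗ[ℝ] (Idx n F → ℝ) :=
      { toFun := fun φ v => φ v.1.embedding
        map_add' := fun _ _ => rfl
        map_smul' := fun _ _ => rfl }
    set S : Set (Idx n F → ℝ) := {g | ∃ α ∈ Ker n F, g = fun v => value n v.1.embedding α} with hS
    have hspan : Submodule.span ℝ S = ⊤ := by
      rw [eq_top_iff]
      intro g _
      obtain ⟨φ, hφ, hg⟩ := exists_of_places hn0 g
      have h1 : Val n F ≤ (Submodule.span ℝ S).comap ev := by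
        unfold Val
        rw [Submodule.span_le]
        rintro _ ⟨α, hα, rfl⟩
        exact Submodule.subset_span ⟨α, hα, rfl⟩
      have h2 : ev φ ∈ Submodule.span ℝ S := h1 (h hφ)
      have h3 : ev φ = g := funext hg
      rwa [h3] at h2
    obtain ⟨b, hbS, hb, hli⟩ := exists_linearIndependent ℝ S
    rw [hspan] at hb
    let B := Module.Basis.mk hli (by
      rw [Subtype.range_coe_subtype, Set.ofPred_mem_eq, hb])
    have hfin' : Finite b := Module.Finite.finite_basis B
    have hfin : Fintype b := Fintype.ofFinite b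
    have hcard : Fintype.card b = Fintype.card (Idx n F) := by
      rw [← Module.finrank_eq_card_basis B, Module.finrank_fintype_fun_eq_card]
    obtain ⟨e⟩ := Fintype.card_eq.1 hcard.symm
    choose y hy hyv using fun w : Idx n F => hbS (e w).2
    refine ⟨y, hy, ?_⟩
    have h1 : LinearIndependent ℝ (fun w : Idx n F => ((e w : b) : Idx n F → ℝ)) :=
      hli.comp e e.injective
    have h2 : LinearIndependent ℝ (Matrix.of fun w v : Idx n F => value n v.1.embedding (y w)).row := by
      have h3 : (Matrix.of fun w v : Idx n F => value n v.1.embedding (y w)).row =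
          fun w : Idx n F => ((e w : b) : Idx n F → ℝ) := by
        funext w
        exact (hyv w).symm
      rw [h3]
      exact h1
    rw [Matrix.linearIndependent_rows_iff_isUnit, Matrix.isUnit_iff_isUnit_det] at h2
    exact h2.ne_zero

/-- embeddings with the same restriction to `L^H` -/
lemma eq_of_comp_eq {L : Type} [Field L] [NumberField L] (H : Subgroup (L ≃ₐ[ℚ] L))
    {φ : (L →+* ℂ) → ℝ} (hφ : ∀ g ∈ H, pull (g : L →+* L) φ = φ) {τ τ' : L →+* ℂ}
    (h : τ.comp (IntermediateField.fixedField H).val.toRingHom =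
      τ'.comp (IntermediateField.fixedField H).val.toRingHom) : φ τ = φ τ' := by
  have hgal : IsGalois (IntermediateField.fixedField H) L := IsGalois.of_fixed_field L H
  obtain ⟨g, hg⟩ := NumberField.ComplexEmbedding.exists_comp_symm_eq_of_comp_eq
    (k := IntermediateField.fixedField H) τ τ' h
  have h1 : (g.symm.restrictScalars ℚ : L ≃ₐ[ℚ] L) ∈ H := by
    have h2 : (g.symm.restrictScalars ℚ : L ≃ₐ[ℚ] L) ∈ (IntermediateField.fixedField H).fixingSubgroup := by
      rw [IntermediateField.mem_fixingSubgroup_iff]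
      intro z hz
      exact g.symm.commutes ⟨z, hz⟩
    rwa [IntermediateField.fixingSubgroup_fixedField] at h2
  have h3 := congrFun (hφ _ h1) τ
  rw [← h3, ← hg]
  rfl

/-- descent -/
lemma descent {L : Type} [Field L] [NumberField L] (H : Subgroup (L ≃ₐ[ℚ] L)) {φ : (L →+* ℂ) → ℝ}
    (hP : φ ∈ Par n L) (hφ : ∀ g ∈ H, pull (g : L →+* L) φ = φ) :
    ∃ ψ ∈ Par n (IntermediateField.fixedField H),
      pull (IntermediateField.fixedField H).val.toRingHom ψ = φ := by
  have hlift : ∀ τ : (IntermediateField.fixedField H) →+* ℂ,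
      (ComplexEmbedding.lift L τ).comp (IntermediateField.fixedField H).val.toRingHom = τ := fun τ =>
    ComplexEmbedding.lift_comp_algebraMap L τ
  refine ⟨fun τ => φ (ComplexEmbedding.lift L τ), fun τ => ?_, funext fun σ => ?_⟩
  · show φ (ComplexEmbedding.lift L (conj τ)) = (-1) ^ (n - 1) * φ (ComplexEmbedding.lift L τ)
    rw [← hP]
    refine eq_of_comp_eq H hφ ?_
    rw [hlift]
    show conj τ = conj ((ComplexEmbedding.lift L τ).comp (IntermediateField.fixedField H).val.toRingHom)
    rw [hlift]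
  · show φ (ComplexEmbedding.lift L (σ.comp (IntermediateField.fixedField H).val.toRingHom)) = φ σ
    exact eq_of_comp_eq H hφ (hlift _)

/-- the group of automorphisms acts -/
def rho (F : Type) [Field F] [NumberField F] :
    (F ≃ₐ[ℚ] F) →* (((F →+* ℂ) → ℝ) →ₗ[ℝ] ((F →+* ℂ) → ℝ)) where
  toFun g := pull (g : F →+* F)
  map_one' := rfl
  map_mul' _ _ := rfl

end

end Pool.Agent.Q219.ZN
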